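import Pool.Agent.L0h21.CK.Stm
import Mathlib.RingTheory.MvPowerSeries.Order
import Mathlib.RingTheory.MvPowerSeries.Substitution
import Mathlib.RingTheory.MvPowerSeries.Derivative

set_option autoImplicit false

/-! Modules `f3` and `jac` of the project CK: formal changes of coordinates. -/

namespace Pool.Agent.L0h64.CK

open MvPowerSeries Pool.Agent.L0h21.CK

variable {V W : Type}

/-- the power `d` of the maximal ideal -/
def VV (d : ℕ) (g : MvPowerSeries V ℂ) : Prop := (d : ℕ∞) ≤ g.order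

lemma ordS_iff {d : ℕ} {g : MvPowerSeries V ℂ} : OrdS d g ↔ VV d g := by
  constructor
  · intro h
    exact nat_le_order fun e he => h e he
  · intro h e he
    refine coeff_of_lt_order ?_
    exact lt_of_lt_of_le (by exact_mod_cast he) h

lemma VV.pd {d : ℕ} {g : MvPowerSeries V ℂ} (h : VV (d + 1) g) (i : V) :
    VV d (pderiv ℂ i g) := by
  refine nat_le_order fun e he => ?_
  rw [coeff_pderiv, coeff_of_lt_order, zero_mul]
  refine lt_of_lt_of_le ?_ h
  rw [map_add, Finsupp.degree_single]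
  exact_mod_cast Nat.succ_lt_succ he

lemma VV.mulR {d : ℕ} {g : MvPowerSeries V ℂ} (h : VV d g) (u : MvPowerSeries V ℂ) :
    VV d (g * u) :=
  (h.trans le_self_add).trans le_order_mul

lemma VV.subst [Finite V] {d : ℕ} {g : MvPowerSeries V ℂ} (h : VV d g)
    {a : V → MvPowerSeries W ℂ} (ha : ∀ i, constantCoeff (a i) = 0) :
    VV d (MvPowerSeries.subst a g) := by
  have h1 := le_order_subst (hasSubst_of_constantCoeff_zero ha) g
  refine le_trans ?_ h1
  refine h.trans ?_
  have h2 : (1 : ℕ∞) ≤ ⨅ i, (a i).order :=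
    le_iInf fun i => one_le_order_iff_constCoeff_eq_zero.2 (ha i)
  calc g.order = 1 * g.order := (one_mul _).symm
    _ ≤ _ := mul_le_mul_left h2 _

lemma VV.add {d : ℕ} {g h : MvPowerSeries V ℂ} (hg : VV d g) (hh : VV d h) :
    VV d (g + h) := (le_min hg hh).trans min_order_le_add

lemma VV.neg {d : ℕ} {g : MvPowerSeries V ℂ} (hg : VV d g) : VV d (-g) := by
  unfold VV
  rw [order_neg]
  exact hg

lemma VV.zero (d : ℕ) : VV d (0 : MvPowerSeries V ℂ) := by
  unfold VV
  rw [order_zero]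
  exact le_top

lemma VV.sum {d : ℕ} {ι : Type} (S : Finset ι) (g : ι → MvPowerSeries V ℂ)
    (h : ∀ i ∈ S, VV d (g i)) : VV d (∑ i ∈ S, g i) := by
  classical
  induction S using Finset.induction_on with
  | empty => exact VV.zero d
  | insert a S ha ih =>
    rw [Finset.sum_insert ha]
    exact (h a (Finset.mem_insert_self a S)).add (ih fun i hi => h i (Finset.mem_insert_of_mem hi))

lemma eq_zero_of_VV {g : MvPowerSeries V ℂ} (h : ∀ d, VV d g) : g = 0 := by
  rw [← order_eq_top_iff]
  refine ENat.eq_top_iff_forall_ge.2 fun d => h d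

section chain

variable [Fintype V]

/-- the difference of the two sides of the chain rule -/
noncomputable def dl (a : V → MvPowerSeries W ℂ) (j : W)
    (f : MvPowerSeries V ℂ) : MvPowerSeries W ℂ :=
  pderiv ℂ j (subst a f) - ∑ i, subst a (pderiv ℂ i f) * pderiv ℂ j (a i)

lemma dl_add {a : V → MvPowerSeries W ℂ} (ha : ∀ i, constantCoeff (a i) = 0)
    (j : W) (f g : MvPowerSeries V ℂ) : dl a j (f + g) = dl a j f + dl a j g := by
  have hs := hasSubst_of_constantCoeff_zero ha
  unfold dl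
  simp only [map_add, subst_add hs, add_mul, Finset.sum_add_distrib]
  ring

lemma dl_poly {a : V → MvPowerSeries W ℂ} (ha : ∀ i, constantCoeff (a i) = 0)
    (j : W) (p : MvPolynomial V ℂ) : dl a j (p : MvPowerSeries V ℂ) = 0 := by
  classical
  have hs := hasSubst_of_constantCoeff_zero ha
  induction p using MvPolynomial.induction_on with
  | C c =>
    unfold dl
    have h1 : (subst a (MvPolynomial.C c : MvPolynomial V ℂ).toMvPowerSeries :
        MvPowerSeries W ℂ) = MvPowerSeries.C c := by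
      rw [subst_coe, MvPolynomial.aeval_C]
      rfl
    rw [h1, pderiv_C]
    simp only [pderiv_coe, MvPolynomial.pderiv_C, subst_coe, map_zero, zero_mul,
      Finset.sum_const_zero, sub_zero]
  | add p q hp hq =>
    rw [MvPolynomial.coe_add, dl_add ha, hp, hq, add_zero]
  | mul_X p k hp =>
    unfold dl at hp ⊢
    rw [sub_eq_zero] at hp
    simp only [MvPolynomial.coe_mul, MvPolynomial.coe_X, subst_mul hs, subst_X hs,
      Derivation.leibniz, smul_eq_mul, subst_add hs]
    rw [hp]
    simp only [add_mul, Finset.sum_add_distrib]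
    have h2 : ∑ i, subst a (MvPolynomial.toMvPowerSeries p) * subst a (pderiv ℂ i (X k)) *
        pderiv ℂ j (a i) = subst a (MvPolynomial.toMvPowerSeries p) * pderiv ℂ j (a k) := by
      rw [Finset.sum_eq_single k]
      · rw [pderiv_X_self]
        have h3 : (subst a (1 : MvPowerSeries V ℂ) : MvPowerSeries W ℂ) = 1 := by
          rw [← coe_substAlgHom hs, map_one]
        rw [h3, mul_one]
      · intro i _ hi
        rw [pderiv_X_of_ne hi.symm]
        have h3 : (subst a (0 : MvPowerSeries V ℂ) : MvPowerSeries W ℂ) = 0 := by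
          rw [← coe_substAlgHom hs, map_zero]
        rw [h3, mul_zero, zero_mul]
      · intro h
        exact absurd (Finset.mem_univ k) h
    rw [h2, sub_eq_zero, Finset.mul_sum]
    congr 1
    refine Finset.sum_congr rfl fun i _ => ?_
    ring

lemma dl_VV {a : V → MvPowerSeries W ℂ} (ha : ∀ i, constantCoeff (a i) = 0)
    (j : W) {d : ℕ} {g : MvPowerSeries V ℂ} (hg : VV (d + 1) g) : VV d (dl a j g) := by
  unfold dl
  rw [sub_eq_add_neg]
  exact ((hg.subst ha).pd j).add (VV.neg (VV.sum _ _ fun i _ => ((hg.pd i).subst ha).mulR _))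

/-- **The chain rule.** -/
theorem chain {a : V → MvPowerSeries W ℂ} (ha : ∀ i, constantCoeff (a i) = 0)
    (j : W) (f : MvPowerSeries V ℂ) :
    pderiv ℂ j (subst a f) = ∑ i, subst a (pderiv ℂ i f) * pderiv ℂ j (a i) := by
  rw [← sub_eq_zero]
  show dl a j f = 0
  refine eq_zero_of_VV fun d => ?_
  have h1 : f = (truncTotal (d + 1) f : MvPolynomial V ℂ).toMvPowerSeries +
      (f - (truncTotal (d + 1) f : MvPolynomial V ℂ).toMvPowerSeries) := by ring
  rw [h1, dl_add ha, dl_poly ha, zero_add]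
  refine dl_VV ha j (nat_le_order fun e he => ?_)
  rw [map_sub, MvPolynomial.coeff_coe, coeff_truncTotal _ he, sub_self]

end chain

section change

variable [Fintype V] {φ : V → MvPowerSeries V ℂ}

lemma cc_phi (hφ : ∀ v, OrdS 2 (φ v - X v)) (v : V) : constantCoeff (φ v) = 0 := by
  have h := hφ v 0 (by simp)
  rw [map_sub] at h
  have h2 : coeff (0 : V →₀ ℕ) (X v : MvPowerSeries V ℂ) = 0 := by
    rw [coeff_zero_eq_constantCoeff_apply, constantCoeff_X]
  rw [h2, sub_zero] at h
  rwa [← coeff_zero_eq_constantCoeff_apply]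

/-- the Jacobian matrix is invertible -/
lemma exists_inv (hφ : ∀ v, OrdS 2 (φ v - X v)) : ∃ B : Matrix V V (MvPowerSeries V ℂ),
    ∀ (f : MvPowerSeries V ℂ) (i : V),
      subst φ (pderiv ℂ i f) = ∑ j, B i j * pderiv ℂ j (subst φ f) := by
  classical
  set D : Matrix V V (MvPowerSeries V ℂ) := Matrix.of fun j l => pderiv ℂ j (φ l) with hD
  have hD0 : D.map (constantCoeff (σ := V) (R := ℂ)) = 1 := by
    ext j l
    rw [Matrix.map_apply, hD, Matrix.of_apply, Matrix.one_apply]
    have h1 : φ l = X l + (φ l - X l) := by ring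
    have h2 : VV 1 (pderiv ℂ j (φ l - X l)) := VV.pd (ordS_iff.1 (hφ l)) j
    have h3 : constantCoeff (pderiv ℂ j (φ l - X l)) = 0 := by
      rw [← coeff_zero_eq_constantCoeff_apply]
      exact ordS_iff.2 h2 0 (by simp)
    rw [h1, map_add, map_add, h3, add_zero]
    by_cases h : j = l
    · subst h
      rw [pderiv_X_self, map_one, if_pos rfl]
    · rw [pderiv_X_of_ne (Ne.symm h), map_zero, if_neg h]
  have hdet : IsUnit D.det := by
    rw [isUnit_iff_constantCoeff, RingHom.map_det]
    have : (constantCoeff (σ := V) (R := ℂ)).mapMatrix D = 1 := hD0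
    rw [this, Matrix.det_one]
    exact isUnit_one
  refine ⟨D⁻¹, fun f i => ?_⟩
  have h1 : (fun j => pderiv ℂ j (subst φ f)) = D.mulVec fun l => subst φ (pderiv ℂ l f) := by
    funext j
    rw [chain (cc_phi hφ)]
    simp only [Matrix.mulVec, dotProduct, hD, Matrix.of_apply]
    exact Finset.sum_congr rfl fun l _ => mul_comm _ _
  have h2 : (D⁻¹).mulVec (fun j => pderiv ℂ j (subst φ f)) = fun l => subst φ (pderiv ℂ l f) := by
    rw [h1, Matrix.mulVec_mulVec, Matrix.nonsing_inv_mul _ hdet, Matrix.one_mulVec]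
  exact (congrFun h2 i).symm

end change

/-- the family pulled back by a change of coordinates -/
noncomputable def pull {φ : V → MvPowerSeries V ℂ} (hs : HasSubst φ)
    (c : ℕ → MvPowerSeries V ℂ →ₗ[ℂ] ℂ) : ℕ → MvPowerSeries V ℂ →ₗ[ℂ] ℂ :=
  fun m => (c m).comp (substAlgHom (R := ℂ) hs).toLinearMap

lemma pull_apply {φ : V → MvPowerSeries V ℂ} (hs : HasSubst φ)
    (c : ℕ → MvPowerSeries V ℂ →ₗ[ℂ] ℂ) (m : ℕ) (h : MvPowerSeries V ℂ) :
    pull hs c m h = c m (subst φ h) := by
  unfold pull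
  rw [LinearMap.comp_apply, AlgHom.toLinearMap_apply, coe_substAlgHom]

theorem t_f3 : S_f3 := by
  classical
  intro V _ g e φ hφ hFP
  obtain ⟨S, hS, c0, hc0, hc01⟩ := hFP
  have hs := hasSubst_of_constantCoeff_zero (cc_phi hφ)
  obtain ⟨B, hB⟩ := exists_inv hφ
  have hzero : (0 : ℕ → MvPowerSeries V ℂ →ₗ[ℂ] ℂ) ∈ S := by
    obtain ⟨c', hc', h⟩ := hS.mu c0 hc0 0
    have : c' = 0 := by
      funext m
      refine LinearMap.ext fun u => ?_
      rw [← h m u, zero_mul, map_zero]
      rfl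
    rwa [this] at hc'
  have hsum : ∀ (T : Finset V) (c : V → ℕ → MvPowerSeries V ℂ →ₗ[ℂ] ℂ), (∀ v, c v ∈ S) →
      ∑ v ∈ T, c v ∈ S := by
    intro T c hc
    induction T using Finset.induction_on with
    | empty => simpa using hzero
    | insert a T ha ih =>
      rw [Finset.sum_insert ha]
      exact hS.add _ (hc a) _ ih
  refine ⟨pull hs '' S, ?_, pull hs c0, ⟨c0, hc0, rfl⟩, ?_⟩
  swap
  · rw [pull_apply, ← coe_substAlgHom hs, map_one]
    exact hc01
  constructor
  · rintro _ ⟨c, hc, rfl⟩ h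
    rw [pull_apply, subst_mul hs]
    exact hS.e1 c hc _
  · rintro _ ⟨c, hc, rfl⟩ m h
    rw [pull_apply, pull_apply, subst_mul hs]
    exact hS.e2 c hc m _
  · rintro _ ⟨c, hc, rfl⟩ i h
    rw [pull_apply, subst_mul hs, hB, Finset.sum_mul, map_sum]
    refine Finset.sum_eq_zero fun j _ => ?_
    rw [show B i j * pderiv ℂ j (subst φ g) * subst φ h =
      pderiv ℂ j (subst φ g) * (B i j * subst φ h) by ring]
    exact hS.d1 c hc _ _
  · rintro _ ⟨c, hc, rfl⟩ i
    choose cb hcb hcb2 using fun j => hS.mu c hc (B i j)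
    choose cd hcd hcd2 using fun j => hS.d2 (cb j) (hcb j) j
    refine ⟨pull hs (∑ j, cd j), ⟨_, hsum _ _ hcd, rfl⟩, fun m h => ?_⟩
    rw [pull_apply, pull_apply, pull_apply, subst_mul hs, hB, hB, Finset.sum_mul, map_sum, map_sum,
      ← Finset.sum_sub_distrib]
    rw [Finset.sum_apply, LinearMap.sum_apply]
    refine Finset.sum_congr rfl fun j _ => ?_
    rw [mul_assoc, hcb2, hcb2, hcd2]
  · rintro _ ⟨c, hc, rfl⟩ a
    obtain ⟨c', hc', h'⟩ := hS.mu c hc (subst φ a)
    refine ⟨pull hs c', ⟨c', hc', rfl⟩, fun m h => ?_⟩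
    rw [pull_apply, pull_apply, subst_mul hs, h']
  · rintro _ ⟨c, hc, rfl⟩ _ ⟨c', hc', rfl⟩
    exact ⟨c + c', hS.add c hc c' hc', rfl⟩
  · obtain ⟨A, hA⟩ := hS.loc
    refine ⟨A, ?_⟩
    rintro _ ⟨c, hc, rfl⟩ m h hh
    rw [pull_apply]
    exact hA c hc m _ (ordS_iff.2 ((ordS_iff.1 hh).subst (cc_phi hφ)))

end Pool.Agent.L0h64.CK
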