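import Pool.Agent.L0h64.CK.FJ

set_option autoImplicit false

/-! Module `jac` of the project CK. -/

namespace Pool.Agent.L0h64.CK

open MvPowerSeries Pool.Agent.L0h21.CK

variable {V : Type} [Fintype V]

/-- a power series without constant term is a combination of the coordinates -/
lemma exists_rep {d : ℕ} {h : MvPowerSeries V ℂ} (hd : VV (d + 1) h) :
    ∃ r : V → MvPowerSeries V ℂ, (∀ u, VV d (r u)) ∧ h = ∑ u, X u * r u := by
  classical
  have hex : ∀ e : V →₀ ℕ, ∃ u : V → Prop, (e ≠ 0 → ∃ w, u = (fun x => x = w) ∧ 1 ≤ e w) := by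
    intro e
    by_cases he : e = 0
    · exact ⟨fun _ => False, fun h => absurd he h⟩
    · obtain ⟨w, hw⟩ := Finsupp.ne_iff.1 he
      exact ⟨fun x => x = w, fun _ => ⟨w, rfl, Nat.one_le_iff_ne_zero.2 (by simpa using hw)⟩⟩
  choose P hP using hex
  let r : V → MvPowerSeries V ℂ := fun u e =>
    if P (e + Finsupp.single u 1) u then coeff (e + Finsupp.single u 1) h else 0
  have hr : ∀ u e, coeff e (r u) =
      if P (e + Finsupp.single u 1) u then coeff (e + Finsupp.single u 1) h else 0 :=
    fun u e => rfl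
  refine ⟨r, fun u => ?_, ?_⟩
  · refine nat_le_order fun e he => ?_
    rw [hr]
    split_ifs with h1
    · refine ordS_iff.2 hd _ ?_
      rw [map_add, Finsupp.degree_single]
      exact Nat.succ_lt_succ he
    · rfl
  · ext e
    rw [map_sum]
    have hX : ∀ u, coeff e (X u * r u) =
        if Finsupp.single u 1 ≤ e then (if P e u then coeff e h else 0) else 0 := by
      intro u
      rw [X_def, coeff_monomial_mul, one_mul]
      by_cases h1 : Finsupp.single u 1 ≤ e
      · rw [if_pos h1, if_pos h1, hr, tsub_add_cancel_of_le h1]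
      · rw [if_neg h1, if_neg h1]
    simp only [hX]
    by_cases he : e = 0
    · subst he
      rw [ordS_iff.2 hd 0 (by simp)]
      simp
    · obtain ⟨w, hw, hw1⟩ := hP e he
      rw [Finset.sum_eq_single w]
      · rw [if_pos (Finsupp.single_le_iff.2 hw1), hw, if_pos rfl]
      · intro u _ hu
        rw [hw]
        simp [hu]
      · intro h
        exact absurd (Finset.mem_univ w) h

theorem t_jac : S_jac := by
  classical
  intro V _ F M φ hφ hF v
  have hs := hasSubst_of_constantCoeff_zero (cc_phi hφ)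
  obtain ⟨B, hB⟩ := exists_inv hφ
  set J : Ideal (MvPowerSeries V ℂ) :=
    Ideal.span (Set.range fun i => pderiv ℂ i (subst φ F)) with hJ
  -- the powers of `φ v` are in the ideal
  have h1 : ∀ v, φ v ^ M ∈ J := by
    intro v
    have h2 : substAlgHom (R := ℂ) hs (X v ^ M) ∈
        (Ideal.span (Set.range fun i => pderiv ℂ i F)).map (substAlgHom (R := ℂ) hs) :=
      Ideal.mem_map_of_mem _ (hF v)
    rw [map_pow, coe_substAlgHom, subst_X hs] at h2
    refine (?_ : (Ideal.span (Set.range fun i => pderiv ℂ i F)).map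
      (substAlgHom (R := ℂ) hs) ≤ J) h2
    rw [Ideal.map_span, Ideal.span_le]
    rintro _ ⟨_, ⟨i, rfl⟩, rfl⟩
    rw [SetLike.mem_coe]
    show substAlgHom (R := ℂ) hs (pderiv ℂ i F) ∈ J
    rw [coe_substAlgHom, hB]
    exact Ideal.sum_mem _ fun j _ => Ideal.mul_mem_left _ _ (Ideal.subset_span ⟨j, rfl⟩)
  -- the coordinates are combinations of the `φ v`
  have h3 : ∃ E : Matrix V V (MvPowerSeries V ℂ), ∀ u, X u = ∑ v, E u v * φ v := by
    have h4 : ∀ v, ∃ r : V → MvPowerSeries V ℂ, (∀ u, VV 1 (r u)) ∧
        φ v - X v = ∑ u, X u * r u := fun v => exists_rep (ordS_iff.1 (hφ v))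
    choose r hr1 hr2 using h4
    set C : Matrix V V (MvPowerSeries V ℂ) :=
      1 + Matrix.of fun v u => r v u with hC
    have hC0 : C.map (constantCoeff (σ := V) (R := ℂ)) = 1 := by
      ext j l
      have h5 : constantCoeff (r j l) = 0 := by
        rw [← coeff_zero_eq_constantCoeff_apply]
        exact ordS_iff.2 (hr1 j l) 0 (by simp)
      rw [Matrix.map_apply, hC, Matrix.add_apply, Matrix.of_apply, map_add, h5, add_zero,
        Matrix.one_apply, Matrix.one_apply]
      split_ifs
      · exact map_one _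
      · exact map_zero _
    have hdet : IsUnit C.det := by
      rw [isUnit_iff_constantCoeff, RingHom.map_det]
      have : (constantCoeff (σ := V) (R := ℂ)).mapMatrix C = 1 := hC0
      rw [this, Matrix.det_one]
      exact isUnit_one
    have h6 : φ = C.mulVec fun u => X u := by
      funext v
      rw [hC, Matrix.add_mulVec, Matrix.one_mulVec, Pi.add_apply]
      simp only [Matrix.mulVec, dotProduct, Matrix.of_apply]
      have h7 : φ v = X v + (φ v - X v) := by ring
      rw [h7, hr2]
      congr 1
      exact Finset.sum_congr rfl fun u _ => mul_comm _ _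
    refine ⟨C⁻¹, fun u => ?_⟩
    have h8 : (C⁻¹).mulVec φ = fun u => X u := by
      rw [h6, Matrix.mulVec_mulVec, Matrix.nonsing_inv_mul _ hdet, Matrix.one_mulVec]
    exact (congrFun h8 u).symm
  obtain ⟨E, hE⟩ := h3
  rcases Nat.eq_zero_or_pos M with hM | hM
  · subst hM
    have h9 := h1 v
    rw [pow_zero] at h9
    rw [Nat.zero_mul, pow_zero]
    exact h9
  · obtain ⟨n, rfl⟩ : ∃ n, M = n + 1 := ⟨M - 1, by omega⟩
    have h10 := Ideal.sum_pow_mem_span_pow (Finset.univ : Finset V) (fun w => E v w * φ w) n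
    rw [← hE v, Finset.card_univ] at h10
    have h11 : Ideal.span ((fun w => (E v w * φ w) ^ (n + 1)) '' (Finset.univ : Finset V)) ≤ J := by
      rw [Ideal.span_le]
      rintro _ ⟨w, _, rfl⟩
      rw [SetLike.mem_coe]
      show (E v w * φ w) ^ (n + 1) ∈ J
      rw [mul_pow]
      exact Ideal.mul_mem_left _ _ (h1 w)
    have h12 := h11 h10
    have hcard : 1 ≤ Fintype.card V := Fintype.card_pos_iff.2 ⟨v⟩
    have h13 : (n + 1) * Fintype.card V =
        (Fintype.card V * n + 1) + (Fintype.card V - 1) := by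
      have : Fintype.card V = (Fintype.card V - 1) + 1 := by omega
      nlinarith
    rw [h13, pow_add]
    exact Ideal.mul_mem_right _ _ h12

end Pool.Agent.L0h64.CK
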